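import Mathlib

/-!
# MP_a62e4d : the pointwise Barbashin-type condition does not imply uniform exponential stability

Counterexample: on `ℓ¹(ℕ)` let `A n x = x n • e (n+1)`.  For `m > k` the evolution operator is
`x ↦ x k • e m`, so `∑_{k ≤ m} ‖A_m^k x‖ = ‖x‖ + ∑_{k < m} |x k| ≤ 2 ‖x‖`, while
`‖A_m^k (e k)‖ = 1` for all `m ≥ k`.
-/

namespace Pool.Agent.Results.MP_a62e4d_an.PointwiseBarbashin

open scoped ENNReal

/-- `evol A k d` is the evolution operator `A_{k+d}^k = A_{k+d-1} ⋯ A_{k+1} A_k`, which carries the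
state at time `k` to the state at time `k + d` of the system `x_{n+1} = A n x_n`. -/
def evol {𝕜 X : Type} [RCLike 𝕜] [NormedAddCommGroup X] [NormedSpace 𝕜 X]
    (A : ℕ → X →L[𝕜] X) (k : ℕ) : ℕ → X →L[𝕜] X
  | 0 => ContinuousLinearMap.id 𝕜 X
  | d + 1 => (A (k + d)).comp (evol A k d)

/-- Condition (iii): there is `B ≥ 1` with `∑_{k=0}^m ‖A_m^k x‖ ≤ B ‖x‖` for all `m`, `x`. -/
def CondIII {𝕜 X : Type} [RCLike 𝕜] [NormedAddCommGroup X] [NormedSpace 𝕜 X]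
    (A : ℕ → X →L[𝕜] X) : Prop :=
  ∃ B : ℝ, 1 ≤ B ∧ ∀ (m : ℕ) (x : X),
    ∑ k ∈ Finset.range (m + 1), ‖evol A k (m - k) x‖ ≤ B * ‖x‖

/-- Uniform exponential stability: there are `N ≥ 1` and `ν > 0` with
`‖A_m^k x‖ ≤ N exp (-ν (m - k)) ‖x‖` for all `m ≥ k` and all `x`. -/
def UniformlyExponentiallyStable {𝕜 X : Type} [RCLike 𝕜] [NormedAddCommGroup X]
    [NormedSpace 𝕜 X] (A : ℕ → X →L[𝕜] X) : Prop :=
  ∃ N ν : ℝ, 1 ≤ N ∧ 0 < ν ∧ ∀ (k m : ℕ), k ≤ m → ∀ x : X,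
    ‖evol A k (m - k) x‖ ≤ N * Real.exp (-ν * ((m : ℝ) - k)) * ‖x‖

section construction

variable (𝕜 : Type) [RCLike 𝕜]

/-- The space `ℓ¹(ℕ)`. -/
abbrev L1 := lp (fun _ : ℕ => 𝕜) 1

instance : Fact ((1 : ℝ≥0∞) ≤ 1) := ⟨le_rfl⟩

/-- `A n x = x n • e (n+1)`. -/
noncomputable def shiftOne (n : ℕ) : L1 𝕜 →L[𝕜] L1 𝕜 :=
  (lp.singleContinuousLinearMap 𝕜 (fun _ : ℕ => 𝕜) 1 (n + 1)).comp
    (lp.evalCLM 𝕜 (fun _ : ℕ => 𝕜) 1 n)

theorem shiftOne_apply (n : ℕ) (x : L1 𝕜) :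
    shiftOne 𝕜 n x = lp.single 1 (n + 1) (x n) := rfl

theorem evol_shiftOne (k d : ℕ) (x : L1 𝕜) :
    evol (shiftOne 𝕜) k (d + 1) x = lp.single 1 (k + d + 1) (x k) := by
  induction d with
  | zero => simp [evol, shiftOne_apply]
  | succ d ih =>
    have h : evol (shiftOne 𝕜) k (d + 1 + 1) x
        = shiftOne 𝕜 (k + (d + 1)) (evol (shiftOne 𝕜) k (d + 1) x) := rfl
    rw [h, ih, shiftOne_apply]
    congr 1
    have : k + (d + 1) = k + d + 1 := by ring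
    rw [this, lp.single_apply_self]

theorem norm_evol_shiftOne (k d : ℕ) (x : L1 𝕜) :
    ‖evol (shiftOne 𝕜) k (d + 1) x‖ = ‖x k‖ := by
  rw [evol_shiftOne, lp.norm_single (by norm_num)]

theorem sum_coord_le (x : L1 𝕜) (s : Finset ℕ) : ∑ k ∈ s, ‖x k‖ ≤ ‖x‖ := by
  have := lp.sum_rpow_le_norm_rpow (p := 1) (by norm_num) x s
  simpa using this

end construction

theorem result (𝕜 : Type) [RCLike 𝕜] :
    ∃ (X : Type) (_ : NormedAddCommGroup X) (_ : NormedSpace 𝕜 X) (_ : CompleteSpace X)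
      (A : ℕ → X →L[𝕜] X),
      CondIII A ∧ ¬ UniformlyExponentiallyStable A := by
  refine ⟨L1 𝕜, inferInstance, inferInstance, inferInstance, shiftOne 𝕜, ?_, ?_⟩
  · refine ⟨2, by norm_num, fun m x => ?_⟩
    rw [Finset.sum_range_succ]
    have h1 : ‖evol (shiftOne 𝕜) m (m - m) x‖ = ‖x‖ := by
      rw [Nat.sub_self]; rfl
    have h2 : ∑ k ∈ Finset.range m, ‖evol (shiftOne 𝕜) k (m - k) x‖
        = ∑ k ∈ Finset.range m, ‖x k‖ := by
      refine Finset.sum_congr rfl fun k hk => ?_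
      have hk' : k < m := Finset.mem_range.mp hk
      obtain ⟨d, rfl⟩ : ∃ d, m = k + (d + 1) := ⟨m - k - 1, by omega⟩
      rw [Nat.add_sub_cancel_left, norm_evol_shiftOne]
    rw [h1, h2]
    have := sum_coord_le 𝕜 x (Finset.range m)
    linarith
  · rintro ⟨N, ν, hN, hν, h⟩
    have h3 : ∀ d : ℕ, (1 : ℝ) ≤ N * Real.exp (-ν * ((d : ℝ) + 1)) := by
      intro d
      have := h 0 (d + 1) (Nat.zero_le _) (lp.single 1 0 (1 : 𝕜))
      rw [Nat.sub_zero, norm_evol_shiftOne, lp.single_apply_self,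
        lp.norm_single (by norm_num)] at this
      simpa using this
    have h4 : Filter.Tendsto (fun d : ℕ => N * Real.exp (-ν * ((d : ℝ) + 1))) Filter.atTop
        (nhds (N * 0)) := by
      refine Filter.Tendsto.const_mul _ ?_
      refine Real.tendsto_exp_atBot.comp ?_
      have : Filter.Tendsto (fun d : ℕ => (d : ℝ) + 1) Filter.atTop Filter.atTop :=
        Filter.tendsto_atTop_add_const_right _ _ tendsto_natCast_atTop_atTop
      exact this.const_mul_atTop_of_neg (by linarith)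
    have h5 := ge_of_tendsto' h4 h3
    norm_num at h5

end Pool.Agent.Results.MP_a62e4d_an.PointwiseBarbashin
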